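import Pool.Agent.T2H09.PL.Defs

set_option autoImplicit false

/-! # The Banach operator ideal of the approximable operators -/

open Filter Topology

noncomputable section

namespace Pool.Agent.T2H09.PL

section

variable {𝕜 : Type} [RCLike 𝕜] {W X Y Z : Type}
  [NormedAddCommGroup W] [NormedSpace 𝕜 W]
  [NormedAddCommGroup X] [NormedSpace 𝕜 X] [NormedAddCommGroup Y] [NormedSpace 𝕜 Y]
  [NormedAddCommGroup Z] [NormedSpace 𝕜 Z]

lemma FinRank.of_range_le {T : X →L[𝕜] Y} {V : Submodule 𝕜 Y} (hV : FiniteDimensional 𝕜 V)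
    (h : ∀ x, T x ∈ V) : FinRank T := ⟨V, hV, h⟩

lemma FinRank.zero : FinRank (0 : X →L[𝕜] Y) :=
  FinRank.of_range_le (V := ⊥) inferInstance fun x => by simp

lemma FinRank.add {S T : X →L[𝕜] Y} (hS : FinRank S) (hT : FinRank T) : FinRank (S + T) := by
  obtain ⟨V, hV, h1⟩ := hS
  obtain ⟨W, hW, h2⟩ := hT
  refine FinRank.of_range_le (V := V ⊔ W) inferInstance fun x => ?_
  exact Submodule.add_mem_sup (h1 x) (h2 x)

lemma FinRank.smul {T : X →L[𝕜] Y} (c : 𝕜) (hT : FinRank T) : FinRank (c • T) := by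
  obtain ⟨V, hV, h1⟩ := hT
  exact FinRank.of_range_le hV fun x => Submodule.smul_mem _ _ (h1 x)

lemma FinRank.comp {T : X →L[𝕜] Y} (hT : FinRank T) (S : W →L[𝕜] X) (R : Y →L[𝕜] Z) :
    FinRank (R.comp (T.comp S)) := by
  obtain ⟨V, hV, h1⟩ := hT
  refine FinRank.of_range_le (V := V.map (R : Y →ₗ[𝕜] Z)) inferInstance fun x => ?_
  exact ⟨T (S x), h1 _, rfl⟩

lemma FinRank.rankOne (f : X →L[𝕜] 𝕜) (y : Y) : FinRank (f.smulRight y) := by
  refine FinRank.of_range_le (V := Submodule.span 𝕜 {y}) inferInstance fun x => ?_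
  exact Submodule.smul_mem _ _ (Submodule.mem_span_singleton_self y)

variable (𝕜 X Y) in
/-- the operators of finite rank -/
def finRankSub : Submodule 𝕜 (X →L[𝕜] Y) where
  carrier := {T | FinRank T}
  add_mem' hS hT := FinRank.add hS hT
  zero_mem' := FinRank.zero
  smul_mem' c _ hT := FinRank.smul c hT

lemma mem_finRankSub {T : X →L[𝕜] Y} : T ∈ finRankSub 𝕜 X Y ↔ FinRank T := Iff.rfl

lemma comp_mem_closure {T : X →L[𝕜] Y} (hT : T ∈ (finRankSub 𝕜 X Y).topologicalClosure)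
    (S : W →L[𝕜] X) (R : Y →L[𝕜] Z) :
    R.comp (T.comp S) ∈ (finRankSub 𝕜 W Z).topologicalClosure := by
  rw [← SetLike.mem_coe, Submodule.topologicalClosure_coe, Metric.mem_closure_iff] at hT ⊢
  intro ε hε
  obtain ⟨U, hU, hTU⟩ := hT (ε / ((‖R‖ + 1) * (‖S‖ + 1))) (by positivity)
  refine ⟨R.comp (U.comp S), FinRank.comp hU S R, ?_⟩
  rw [dist_eq_norm] at hTU ⊢
  have e : R.comp (T.comp S) - R.comp (U.comp S) = R.comp ((T - U).comp S) := by
    ext x
    simp
  rw [e]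
  have hR : 0 ≤ ‖R‖ := norm_nonneg _
  have hS : 0 ≤ ‖S‖ := norm_nonneg _
  have hTU0 : 0 ≤ ‖T - U‖ := norm_nonneg _
  calc ‖R.comp ((T - U).comp S)‖ ≤ ‖R‖ * (‖T - U‖ * ‖S‖) :=
        (R.opNorm_comp_le _).trans (mul_le_mul_of_nonneg_left ((T - U).opNorm_comp_le _) hR)
    _ ≤ (‖R‖ + 1) * (‖T - U‖ * (‖S‖ + 1)) := by gcongr <;> linarith
    _ = ‖T - U‖ * ((‖R‖ + 1) * (‖S‖ + 1)) := by ring
    _ < ε / ((‖R‖ + 1) * (‖S‖ + 1)) * ((‖R‖ + 1) * (‖S‖ + 1)) := by
        exact mul_lt_mul_of_pos_right hTU (by positivity)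
    _ = ε := by field_simp

end

variable (𝕜 : Type) [RCLike 𝕜]

/-- the component of the ideal -/
def comp0 (X Y : Ban 𝕜) : Submodule 𝕜 (X.E →L[𝕜] Y.E) := (finRankSub 𝕜 X.E Y.E).topologicalClosure

lemma comp0_norm (X Y : Ban 𝕜) : CompleteNormOn (comp0 𝕜 X Y) (fun T => ‖T‖) where
  nonneg T _ := norm_nonneg T
  eq_zero T _ h := norm_eq_zero.1 h
  smul c T _ := norm_smul c T
  add S _ T _ := norm_add_le S T
  complete := by
    intro U hU hC
    have hc : CauchySeq U := by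
      rw [Metric.cauchySeq_iff]
      intro ε hε
      obtain ⟨N, hN⟩ := hC ε hε
      refine ⟨N, fun m hm n hn => ?_⟩
      rw [dist_eq_norm]
      exact hN m hm n hn
    obtain ⟨T, hT⟩ := cauchySeq_tendsto_of_complete hc
    refine ⟨T, ?_, ?_⟩
    · exact (Submodule.isClosed_topologicalClosure (finRankSub 𝕜 X.E Y.E)).mem_of_tendsto hT
        (Eventually.of_forall hU)
    · have h := tendsto_iff_norm_sub_tendsto_zero.1 hT
      exact h

/-- the Banach operator ideal of the approximable operators (the norm limits of operators of finite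
rank), with the operator norm -/
def approx : OpIdeal 𝕜 where
  mem X Y := comp0 𝕜 X Y
  nrm X Y T := ‖T‖
  norm X Y := comp0_norm 𝕜 X Y
  fin_mem X Y T hT := Submodule.le_topologicalClosure (finRankSub 𝕜 X.E Y.E) hT
  nrm_tensor X Y f y := f.norm_smulRight_apply y
  ideal := by
    intro W X Y Z S T R hT
    refine ⟨comp_mem_closure (W := W.E) (X := X.E) (Y := Y.E) (Z := Z.E) hT S R, ?_⟩
    have h1 : ‖ContinuousLinearMap.comp (M₁ := W.E) (M₂ := Y.E) (M₃ := Z.E) R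
        (ContinuousLinearMap.comp (M₁ := W.E) (M₂ := X.E) (M₃ := Y.E) T S)‖ ≤ ‖R‖ * ‖T‖ * ‖S‖ := by
      refine (ContinuousLinearMap.opNorm_comp_le _ _).trans ?_
      rw [mul_assoc]
      exact mul_le_mul_of_nonneg_left (ContinuousLinearMap.opNorm_comp_le _ _) (norm_nonneg _)
    exact h1

variable {𝕜}

lemma mem_approx_iff (X Y : Ban 𝕜) (T : Op X Y) :
    T ∈ (approx 𝕜).mem X Y ↔ ∀ ε : ℝ, 0 < ε → ∃ S : Op X Y, S.Fin ∧ ‖T - S‖ < ε := by
  change (show X.E →L[𝕜] Y.E from T) ∈ (finRankSub 𝕜 X.E Y.E).topologicalClosure ↔ _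
  rw [← SetLike.mem_coe, Submodule.topologicalClosure_coe, Metric.mem_closure_iff]
  refine forall_congr' fun ε => forall_congr' fun hε => exists_congr fun S => ?_
  refine and_congr Iff.rfl ?_
  rw [dist_eq_norm]
  exact Iff.rfl

lemma nrm_approx (X Y : Ban 𝕜) (T : Op X Y) : (approx 𝕜).nrm X Y T = ‖T‖ := rfl

/-- every Banach space satisfies `(P_λ)`, `λ ≥ 1`, for the approximable operators -/
theorem pcond_approx (X : Ban 𝕜) (lam : ℝ) (hlam : 1 ≤ lam) : PCond (approx 𝕜) lam X := by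
  intro Y T hT
  rw [mem_approx_iff] at hT
  choose U hU hUT using fun n : ℕ => hT (1 / ((n : ℝ) + 1)) (by positivity)
  have h0 : Tendsto (fun n : ℕ => 1 / ((n : ℝ) + 1)) atTop (𝓝 0) := tendsto_one_div_add_atTop_nhds_zero_nat
  refine ⟨ℕ, inferInstance, inferInstance, inferInstance, U, hU, ?_, ?_⟩
  · intro x
    have h1 : Tendsto (fun n : ℕ => 1 / ((n : ℝ) + 1) * ‖x‖) atTop (𝓝 0) := by
      have := h0.mul_const ‖x‖
      rwa [zero_mul] at this
    refine squeeze_zero (fun n => norm_nonneg _) (fun n => ?_) h1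
    have h2 : ‖(U n).ap x - T.ap x‖ ≤ ‖T - U n‖ * ‖x‖ := by
      rw [← norm_neg, neg_sub]
      exact ContinuousLinearMap.le_opNorm (E := X.E) (F := Y.E) (T - U n) x
    exact h2.trans (mul_le_mul_of_nonneg_right (hUT n).le (norm_nonneg _))
  · intro ε hε
    have h2 : ∀ᶠ n : ℕ in atTop, 1 / ((n : ℝ) + 1) < ε := h0.eventually_lt_const hε
    filter_upwards [h2] with n hn
    rw [nrm_approx, nrm_approx]
    have h3 : 0 ≤ ‖T‖ := norm_nonneg _
    have h4 : ‖U n‖ ≤ ‖T‖ + ‖T - U n‖ := by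
      have h5 : U n = T - (T - U n) := by abel
      calc ‖U n‖ = ‖T - (T - U n)‖ := by rw [← h5]
        _ ≤ _ := norm_sub_le _ _
    have h6 := hUT n
    nlinarith

end Pool.Agent.T2H09.PL
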