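import Mathlib

set_option autoImplicit false

/-! # Banach operator ideals, the `λ`-BAP for an ideal and the condition `(P_λ)` -/

open Filter Topology

noncomputable section

namespace Pool.Agent.T2H09.PL

/-- A bounded operator of finite rank: its values lie in a subspace of finite dimension. -/
def FinRank {𝕜 : Type} [RCLike 𝕜] {X Y : Type} [NormedAddCommGroup X] [NormedSpace 𝕜 X]
    [NormedAddCommGroup Y] [NormedSpace 𝕜 Y] (T : X →L[𝕜] Y) : Prop :=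
  ∃ V : Submodule 𝕜 Y, FiniteDimensional 𝕜 V ∧ ∀ x : X, T x ∈ V

/-- A Banach space over `𝕜`. -/
structure Ban (𝕜 : Type) [RCLike 𝕜] where
  /-- the underlying space -/
  E : Type
  [ng : NormedAddCommGroup E]
  [ns : NormedSpace 𝕜 E]
  [cs : CompleteSpace E]

attribute [instance] Ban.ng Ban.ns Ban.cs

variable {𝕜 : Type} [RCLike 𝕜]

/-- The bounded operators from `X` to `Y`, with the operator norm. -/
def Op (X Y : Ban 𝕜) : Type := X.E →L[𝕜] Y.E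

instance opGroup (X Y : Ban 𝕜) : NormedAddCommGroup (Op X Y) :=
  ContinuousLinearMap.toNormedAddCommGroup (E := X.E) (F := Y.E) (σ₁₂ := RingHom.id 𝕜)

instance opSpace (X Y : Ban 𝕜) : NormedSpace 𝕜 (Op X Y) :=
  ContinuousLinearMap.toNormedSpace (E := X.E) (F := Y.E) (σ₁₂ := RingHom.id 𝕜)

/-- The value `T x`. -/
def Op.ap {X Y : Ban 𝕜} (T : Op X Y) (x : X.E) : Y.E := ContinuousLinearMap.toLinearMap T x

/-- The composition of bounded operators. -/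
def Op.cp {X Y Z : Ban 𝕜} (T : Op Y Z) (S : Op X Y) : Op X Z := ContinuousLinearMap.comp T S

/-- The operator `x* ⊗ y`, that is `x ↦ x*(x) y`. -/
def Op.tensor {X Y : Ban 𝕜} (f : X.E →L[𝕜] 𝕜) (y : Y.E) : Op X Y := f.smulRight y

/-- The operators of finite rank. -/
def Op.Fin {X Y : Ban 𝕜} (T : Op X Y) : Prop := FinRank (X := X.E) (Y := Y.E) T

/-- `N` is a complete norm on the linear subspace `M` of `E` (only its values on `M` matter). -/
structure CompleteNormOn {E : Type} [NormedAddCommGroup E] [NormedSpace 𝕜 E] (M : Submodule 𝕜 E)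
    (N : E → ℝ) : Prop where
  nonneg : ∀ T ∈ M, 0 ≤ N T
  eq_zero : ∀ T ∈ M, N T = 0 → T = 0
  smul : ∀ (c : 𝕜), ∀ T ∈ M, N (c • T) = ‖c‖ * N T
  add : ∀ S ∈ M, ∀ T ∈ M, N (S + T) ≤ N S + N T
  complete : ∀ U : ℕ → E, (∀ n, U n ∈ M) →
    (∀ ε : ℝ, 0 < ε → ∃ n0 : ℕ, ∀ m ≥ n0, ∀ n ≥ n0, N (U m - U n) < ε) →
    ∃ T ∈ M, Tendsto (fun n => N (U n - T)) atTop (𝓝 0)

/-- A Banach operator ideal over `𝕜`: for all Banach spaces `X`, `Y` a linear subspace `mem X Y` of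
the bounded operators from `X` to `Y`, which contains the operators of finite rank, and a complete
norm `nrm X Y` on it, with `‖x* ⊗ y‖ = ‖x*‖ ‖y‖` and the ideal property. -/
structure OpIdeal (𝕜 : Type) [RCLike 𝕜] where
  /-- the component `𝒜(X, Y)` -/
  mem : ∀ X Y : Ban 𝕜, Submodule 𝕜 (Op X Y)
  /-- the ideal norm -/
  nrm : ∀ X Y : Ban 𝕜, Op X Y → ℝ
  norm : ∀ X Y : Ban 𝕜, CompleteNormOn (mem X Y) (nrm X Y)
  /-- the operators of finite rank belong to the ideal -/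
  fin_mem : ∀ (X Y : Ban 𝕜) (T : Op X Y), T.Fin → T ∈ mem X Y
  nrm_tensor : ∀ (X Y : Ban 𝕜) (f : X.E →L[𝕜] 𝕜) (y : Y.E),
    nrm X Y (Op.tensor f y) = ‖f‖ * ‖y‖
  /-- the ideal property -/
  ideal : ∀ (W X Y Z : Ban 𝕜) (S : Op W X) (T : Op X Y) (R : Op Y Z), T ∈ mem X Y →
    R.cp (T.cp S) ∈ mem W Z ∧ nrm W Z (R.cp (T.cp S)) ≤ ‖R‖ * nrm X Y T * ‖S‖

/-- The approximation property of `X`. -/
def AP (X : Ban 𝕜) : Prop :=
  ∀ K : Set X.E, IsCompact K → ∀ ε : ℝ, 0 < ε → ∃ S : Op X X, S.Fin ∧ ∀ x ∈ K, ‖S.ap x - x‖ ≤ ε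

/-- `X` has the `λ`-BAP for the Banach operator ideal `A`: for every Banach space `Y` and every
`T ∈ A(X, Y)` there is a net `(S_i)` of operators of finite rank on `X` which converges to the
identity uniformly on the compact subsets of `X` and satisfies
`limsup ‖T S_i‖_A ≤ λ ‖T‖_A`. -/
def BAPFor (A : OpIdeal 𝕜) (lam : ℝ) (X : Ban 𝕜) : Prop :=
  ∀ (Y : Ban 𝕜) (T : Op X Y), T ∈ A.mem X Y →
    ∃ (ι : Type) (_ : Nonempty ι) (_ : Preorder ι) (_ : IsDirectedOrder ι) (S : ι → Op X X),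
      (∀ i, (S i).Fin) ∧
      (∀ K : Set X.E, IsCompact K → ∀ δ : ℝ, 0 < δ →
        ∀ᶠ i in atTop, ∀ x ∈ K, ‖(S i).ap x - x‖ ≤ δ) ∧
      ∀ ε : ℝ, 0 < ε → ∀ᶠ i in atTop, A.nrm X Y (T.cp (S i)) ≤ lam * A.nrm X Y T + ε

/-- `X` satisfies the condition `(P_λ)` for the Banach operator ideal `A`: for every Banach space
`Y` and every `T ∈ A(X, Y)` there is a net `(U_i)` of operators of finite rank from `X` to `Y` which
converges to `T` pointwise and satisfies `limsup ‖U_i‖_A ≤ λ ‖T‖_A`. -/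
def PCond (A : OpIdeal 𝕜) (lam : ℝ) (X : Ban 𝕜) : Prop :=
  ∀ (Y : Ban 𝕜) (T : Op X Y), T ∈ A.mem X Y →
    ∃ (ι : Type) (_ : Nonempty ι) (_ : Preorder ι) (_ : IsDirectedOrder ι) (U : ι → Op X Y),
      (∀ i, (U i).Fin) ∧
      (∀ x : X.E, Tendsto (fun i => ‖(U i).ap x - T.ap x‖) atTop (𝓝 0)) ∧
      ∀ ε : ℝ, 0 < ε → ∀ᶠ i in atTop, A.nrm X Y (U i) ≤ lam * A.nrm X Y T + ε

/-- `A` consists of the norm limits of the operators of finite rank, with the operator norm. -/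
def IsApproximable (A : OpIdeal 𝕜) : Prop :=
  ∀ (X Y : Ban 𝕜) (T : Op X Y),
    (T ∈ A.mem X Y ↔ ∀ ε : ℝ, 0 < ε → ∃ S : Op X Y, S.Fin ∧ ‖T - S‖ < ε) ∧ A.nrm X Y T = ‖T‖

/-- `X` is linearly isometric to a closed subspace of `c₀`: there is a linear map `J` from `X` to
the sequences tending to zero with `‖x‖ = sup_n |J x n|`. -/
def EmbedsC0 (X : Ban 𝕜) : Prop :=
  ∃ J : X.E →ₗ[𝕜] (ℕ → 𝕜), ∀ x : X.E, Tendsto (J x) atTop (𝓝 0) ∧
    IsLUB (Set.range fun n => ‖J x n‖) ‖x‖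

end Pool.Agent.T2H09.PL
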