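import Pool.Agent.T2H09.PL.Space

set_option autoImplicit false
set_option linter.unusedSectionVars false

/-! # The space fails the `λ`-BAP for the approximable operators -/

open Filter Topology Finset
open scoped ENNReal

noncomputable section

namespace Pool.Agent.T2H09.PL

open Pool.Agent.BAPp Pool.Agent.H812R2.AP Pool.Agent.H812R2.JS

/-- the weights of the block `l` -/
def al (l : ℕ) (i : ℕ) : ℝ :=
  match cd.symm i with
  | (l', none, x) => if l' = l ∧ x.2 < 2 ^ (x.1 + 2) then 1 / ((x.1 : ℝ) + 1) else 0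
  | (_, some _, _) => 0

lemma al_none (l k g : ℕ) (hg : g < 2 ^ (k + 2)) : al l (cd (l, none, (k, g))) = 1 / ((k : ℝ) + 1) := by
  unfold al
  rw [Equiv.symm_apply_apply]
  dsimp only
  rw [if_pos ⟨rfl, hg⟩]

lemma al_nonneg (l i : ℕ) : 0 ≤ al l i := by
  unfold al
  split
  · split_ifs
    · positivity
    · exact le_rfl
  · exact le_rfl

lemma al_le_one (l i : ℕ) : al l i ≤ 1 := by
  unfold al
  split
  · split_ifs
    · rw [div_le_one (by positivity)]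
      have : (0 : ℝ) ≤ _ := Nat.cast_nonneg (α := ℝ) (cd.symm i).2.2.1
      rename_i h _
      rw [h] at this
      linarith
    · exact zero_le_one
  · exact zero_le_one

lemma al_small (l : ℕ) (ε : ℝ) (hε : 0 < ε) : ∃ N : ℕ, ∀ i, N ≤ i → al l i ≤ ε := by
  obtain ⟨k0, hk0⟩ := exists_nat_one_div_lt hε
  set F : Finset ℕ := ((range (k0 + 1)) ×ˢ (range (2 ^ (k0 + 2)))).image
    (fun x : ℕ × ℕ => cd (l, none, x)) with hF
  refine ⟨F.sup id + 1, fun i hi => ?_⟩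
  have hiF : i ∉ F := by
    intro h
    have : i ≤ F.sup id := Finset.le_sup (f := id) h
    omega
  obtain ⟨p, rfl⟩ := cd.surjective i
  obtain ⟨l', o, x⟩ := p
  unfold al
  rw [Equiv.symm_apply_apply]
  cases o with
  | none =>
    dsimp only
    split_ifs with h
    · obtain ⟨h1, h2⟩ := h
      have hx : k0 < x.1 := by
        by_contra hcon
        refine hiF (Finset.mem_image.2 ⟨x, ?_, by rw [h1]⟩)
        rw [mem_product, mem_range, mem_range]
        exact ⟨by omega, lt_of_lt_of_le h2 (Nat.pow_le_pow_right (by norm_num) (by omega))⟩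
      have h3 : (k0 : ℝ) + 1 ≤ (x.1 : ℝ) + 1 := by
        have : (k0 : ℝ) ≤ (x.1 : ℝ) := by exact_mod_cast hx.le
        linarith
      exact (one_div_le_one_div_of_le (by positivity) h3).trans hk0.le
    · exact hε.le
  | some n => exact hε.le

variable (𝕜 : Type) [RCLike 𝕜] (s : Sys)

/-- a diagonal operator -/
def diag (a : ℕ → ℝ) (M : ℝ) (hM : 0 ≤ M) (ha : ∀ i, |a i| ≤ M) : XK 𝕜 s →L[𝕜] LK 𝕜 :=
  LinearMap.mkContinuous
    { toFun := fun z => ⟨fun i => (a i : 𝕜) * (z : LK 𝕜) i, memℓp_infty ⟨M * ‖z‖, by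
        rintro _ ⟨i, rfl⟩
        dsimp only
        rw [norm_mul, RCLike.norm_ofReal]
        exact mul_le_mul (ha i) (apply_le_LK i (z : LK 𝕜)) (norm_nonneg _) hM⟩⟩
      map_add' := fun u v => by
        apply lp.ext; funext i
        change (a i : 𝕜) * ((u : LK 𝕜) i + (v : LK 𝕜) i) =
          (a i : 𝕜) * (u : LK 𝕜) i + (a i : 𝕜) * (v : LK 𝕜) i
        ring
      map_smul' := fun c u => by
        apply lp.ext; funext i
        change (a i : 𝕜) * (c * (u : LK 𝕜) i) = c * ((a i : 𝕜) * (u : LK 𝕜) i)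
        ring } M (fun z => norm_le_LK (mul_nonneg hM (norm_nonneg _)) fun i => by
      change ‖(a i : 𝕜) * (z : LK 𝕜) i‖ ≤ M * ‖z‖
      rw [norm_mul, RCLike.norm_ofReal]
      exact mul_le_mul (ha i) (apply_le_LK i (z : LK 𝕜)) (norm_nonneg _) hM)

lemma diag_apply (a : ℕ → ℝ) (M : ℝ) (hM : 0 ≤ M) (ha : ∀ i, |a i| ≤ M) (z : XK 𝕜 s) (i : ℕ) :
    ((diag 𝕜 s a M hM ha) z : LK 𝕜) i = (a i : 𝕜) * (z : LK 𝕜) i := rfl

lemma norm_diag_le (a : ℕ → ℝ) (M : ℝ) (hM : 0 ≤ M) (ha : ∀ i, |a i| ≤ M) :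
    ‖(diag 𝕜 s a M hM ha : XK 𝕜 s →L[𝕜] LK 𝕜)‖ ≤ M :=
  LinearMap.mkContinuous_norm_le _ hM _

/-- a finitely supported diagonal operator has finite rank -/
lemma finRank_diag (a : ℕ → ℝ) (M : ℝ) (hM : 0 ≤ M) (ha : ∀ i, |a i| ≤ M) (N : ℕ)
    (h0 : ∀ i, N ≤ i → a i = 0) : FinRank (diag 𝕜 s a M hM ha : XK 𝕜 s →L[𝕜] LK 𝕜) := by
  set e : ℕ → LK 𝕜 := fun j => lp.single ∞ j (1 : 𝕜) with he
  have hfd : FiniteDimensional 𝕜 (Submodule.span 𝕜 (e '' (Set.Iio N))) :=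
    FiniteDimensional.span_of_finite 𝕜 ((Set.finite_Iio N).image _)
  refine FinRank.of_range_le hfd fun z => ?_
  have hz : diag 𝕜 s a M hM ha z = ∑ j ∈ range N, ((a j : 𝕜) * (z : LK 𝕜) j) • e j := by
    apply lp.ext; funext i
    rw [diag_apply]
    have h1 : ((∑ j ∈ range N, ((a j : 𝕜) * (z : LK 𝕜) j) • e j : LK 𝕜)) i =
        ∑ j ∈ range N, ((a j : 𝕜) * (z : LK 𝕜) j) * (e j) i := by
      rw [lp.coeFn_sum, Finset.sum_apply]
      rfl
    rw [h1]
    have h2 : ∀ j, (e j) i = if i = j then (1 : 𝕜) else 0 := by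
      intro j
      rw [he]
      dsimp only
      by_cases hij : i = j
      · subst hij
        rw [if_pos rfl, lp.single_apply_self]
      · rw [if_neg hij]
        exact lp.single_apply_ne (E := fun _ : ℕ => 𝕜) ∞ j (1 : 𝕜) hij
    simp only [h2]
    by_cases hi : i < N
    · rw [Finset.sum_eq_single i]
      · simp
      · intro j _ hj
        rw [if_neg (Ne.symm hj), mul_zero]
      · intro h
        exact absurd (mem_range.2 hi) h
    · rw [h0 i (by omega), Finset.sum_eq_zero]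
      · simp
      · intro j hj
        have := mem_range.1 hj
        rw [if_neg (by omega), mul_zero]
  rw [hz]
  refine Submodule.sum_mem _ fun j hj => Submodule.smul_mem _ _ (Submodule.subset_span ?_)
  exact ⟨j, mem_range.1 hj, rfl⟩

/-- the diagonal operator of the block `l` -/
def DD (l : ℕ) : XK 𝕜 s →L[𝕜] LK 𝕜 := diag 𝕜 s (al l) 1 zero_le_one (fun i => by
  rw [abs_of_nonneg (al_nonneg l i)]; exact al_le_one l i)

lemma DD_apply (l : ℕ) (z : XK 𝕜 s) (i : ℕ) : (DD 𝕜 s l z : LK 𝕜) i = (al l i : 𝕜) * (z : LK 𝕜) i := rfl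

lemma norm_DD (l : ℕ) : ‖(DD 𝕜 s l : XK 𝕜 s →L[𝕜] LK 𝕜)‖ ≤ 1 := norm_diag_le 𝕜 s _ _ _ _

lemma DD_mem (l : ℕ) (ε : ℝ) (hε : 0 < ε) :
    ∃ S : XK 𝕜 s →L[𝕜] LK 𝕜, FinRank S ∧ ‖DD 𝕜 s l - S‖ < ε := by
  obtain ⟨N, hN⟩ := al_small l (ε / 2) (by positivity)
  have ha : ∀ i, |(if i < N then al l i else 0)| ≤ 1 := by
    intro i
    split_ifs
    · rw [abs_of_nonneg (al_nonneg l i)]; exact al_le_one l i
    · rw [abs_zero]; exact zero_le_one
  refine ⟨diag 𝕜 s (fun i => if i < N then al l i else 0) 1 zero_le_one ha,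
    finRank_diag 𝕜 s _ _ _ _ N fun i hi => if_neg (by omega), ?_⟩
  refine lt_of_le_of_lt ?_ (half_lt_self hε)
  refine ContinuousLinearMap.opNorm_le_bound _ (by positivity) fun z => ?_
  refine norm_le_LK (by positivity) fun i => ?_
  have e : ((DD 𝕜 s l - diag 𝕜 s (fun i => if i < N then al l i else 0) 1 zero_le_one ha) z : LK 𝕜) i =
      (((al l i - if i < N then al l i else 0 : ℝ)) : 𝕜) * (z : LK 𝕜) i := by
    rw [sub_apply, sub_apply_LK, DD_apply, diag_apply, RCLike.ofReal_sub, sub_mul]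
  rw [e, norm_mul, RCLike.norm_ofReal]
  refine mul_le_mul ?_ (apply_le_LK i (z : LK 𝕜)) (norm_nonneg _) (by positivity)
  split_ifs with h
  · rw [sub_self, abs_zero]; positivity
  · rw [sub_zero, abs_of_nonneg (al_nonneg l i)]
    exact hN i (by omega)

/-- the space, as a Banach space over `𝕜` -/
def BX : Ban 𝕜 := { E := XK 𝕜 s }

/-- the bounded sequences, as a Banach space over `𝕜` -/
def BL : Ban 𝕜 := { E := LK 𝕜 }

theorem ap_BX : AP (BX 𝕜 s) := by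
  intro K hK ε hε
  exact hasAP_XK s K hK ε hε

theorem embeds_BX : EmbedsC0 (BX 𝕜 s) := by
  refine ⟨{ toFun := fun x n => ((show XK 𝕜 s from x : XK 𝕜 s) : LK 𝕜) n
            map_add' := fun _ _ => rfl
            map_smul' := fun _ _ => rfl }, fun x => ⟨tendsto_XK s (show XK 𝕜 s from x).2, ?_⟩⟩
  exact lp.isLUB_norm ((show XK 𝕜 s from x : XK 𝕜 s) : LK 𝕜)

/-- the space fails the `λ`-BAP for the approximable operators, for every `λ` -/
theorem not_bap (lam : ℝ) : ¬ BAPFor (approx 𝕜) lam (BX 𝕜 s) := by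
  intro H
  set C : ℝ := |lam| + 1 with hC
  have hC0 : 0 ≤ C := by positivity
  obtain ⟨l, hl⟩ := noBAPw s C hC0
  apply hl
  obtain ⟨ι, _, _, _, S0, hS1, hS2, hS3⟩ := H (BL 𝕜) (DD 𝕜 s l)
    ((mem_approx_iff (BX 𝕜 s) (BL 𝕜) _).2 (DD_mem 𝕜 s l))
  set S : ι → (XK 𝕜 s →L[𝕜] XK 𝕜 s) := S0 with hSdef
  intro K hK ε hε
  have h1 := hS2 (incS 𝕜 s '' K) (hK.image (continuous_incS s)) ε hε
  have h2 := hS3 1 one_pos
  obtain ⟨i, hi1, hi2⟩ := (h1.and h2).exists
  rw [nrm_approx, nrm_approx] at hi2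
  have hi3 : ‖(DD 𝕜 s l).comp (S i)‖ ≤ C := by
    have h5 : lam * ‖(DD 𝕜 s l : XK 𝕜 s →L[𝕜] LK 𝕜)‖ ≤ |lam| * 1 :=
      (mul_le_mul_of_nonneg_right (le_abs_self lam) (norm_nonneg _)).trans
        (mul_le_mul_of_nonneg_left (norm_DD 𝕜 s l) (abs_nonneg _))
    have h6 : ‖(DD 𝕜 s l).comp (S i)‖ ≤ lam * ‖(DD 𝕜 s l : XK 𝕜 s →L[𝕜] LK 𝕜)‖ + 1 := hi2
    rw [hC]
    linarith
  refine ⟨res s (S i), finRank_res s (S i) (hS1 i), ?_, ?_⟩
  · intro z k g hg
    rw [res_apply]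
    set j := cd (l, none, (k, g)) with hj
    have h6 : |(ReS s (S i (incS 𝕜 s z)) : LL) j| ≤ ‖((S i (incS 𝕜 s z) : XK 𝕜 s) : LK 𝕜) j‖ :=
      RCLike.abs_re_le_norm _
    have h7 : ‖((S i (incS 𝕜 s z) : XK 𝕜 s) : LK 𝕜) j‖ =
        ((k : ℝ) + 1) * ‖(DD 𝕜 s l (S i (incS 𝕜 s z)) : LK 𝕜) j‖ := by
      rw [DD_apply, norm_mul, RCLike.norm_ofReal, hj, al_none l k g hg, abs_of_nonneg (by positivity),
        ← mul_assoc, mul_one_div_cancel (by positivity), one_mul]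
    have h8 : ‖(DD 𝕜 s l (S i (incS 𝕜 s z)) : LK 𝕜) j‖ ≤ C * ‖z‖ := by
      refine (apply_le_LK j _).trans ?_
      have h9 := ((DD 𝕜 s l).comp (S i)).le_opNorm (incS 𝕜 s z)
      refine h9.trans (mul_le_mul hi3 (norm_incS s z) (norm_nonneg _) hC0)
    refine h6.trans ?_
    rw [h7, mul_assoc]
    exact mul_le_mul_of_nonneg_left h8 (by positivity)
  · intro x hx
    have h5 := hi1 _ ⟨x, hx, rfl⟩
    have e : res s (S i) x - x = ReS s (S i (incS 𝕜 s x) - incS 𝕜 s x) := by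
      rw [ReS_sub, ReS_incS, res_apply]
    rw [e]
    exact (norm_ReS s _).trans h5

end Pool.Agent.T2H09.PL
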