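import Pool.Agent.H812R2.JS.NoBAP

set_option autoImplicit false
set_option linter.unusedSectionVars false

/-! # A weighted form of the failure of the bounded approximation property

For the subspace `SS s` of `c₀` of `H812R2.JS` there is, for every `C`, a block `lam` such that no
finite rank operators near the identity on compact sets have the coordinates of the block `lam`
bounded by `C (k + 1)` at the level `k`. -/

open Filter Topology Finset
open scoped ENNReal

noncomputable section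

namespace Pool.Agent.T2H09.PL

open Pool.Agent.BAPp Pool.Agent.H812R2.AP Pool.Agent.H812R2.JS

variable (s : Sys)

/-- weighted bounds of the coordinates of the block `lam` -/
def WB (lam : ℕ) (C : ℝ) (T : SS s →L[ℝ] SS s) : Prop :=
  ∀ z : SS s, ∀ k g : ℕ, g < 2 ^ (k + 2) →
    |(T z : LL) (cd (lam, none, (k, g)))| ≤ ((k : ℝ) + 1) * C * ‖z‖

lemma abs_Y_le_w {lam : ℕ} {C : ℝ} {T : SS s →L[ℝ] SS s} (hT : WB s lam C T) (z : SS s)
    {x : ℕ × ℕ} (hx : x.2 < 2 ^ (x.1 + 2)) :
    |Y lam (T z : LL) x| ≤ ((x.1 : ℝ) + 1) * C * ‖z‖ / w lam x.1 := by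
  rw [Y_apply, abs_div, abs_of_pos (w_pos _ _)]
  exact div_le_div_of_nonneg_right (hT z x.1 x.2 hx) (w_pos _ _).le

/-- the difference with the identity, near vectors -/
lemma near_w (lam m m0 : ℕ) (hm : m0 ≤ m) (T : SS s →L[ℝ] SS s) {C ε M : ℝ} (hC0 : 0 ≤ C)
    (hT : WB s lam C T)
    (f : En s m) (f0 : En s m0) (hf : (f : Fn) = f0) (hM : ∀ x, |(f : Fn) x| ≤ M)
    (hε : ‖T (J s lam m0 f0) - J s lam m0 f0‖ ≤ ε) (x : ℕ × ℕ) (hx : x.2 < 2 ^ (x.1 + 2)) :
    |(Th s lam m T - (En s m).subtype) f x| ≤ ε + C * (((x.1 : ℝ) + 1) * M) / w lam x.1 := by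
  have e1 : (Th s lam m T - (En s m).subtype) f x =
      Y lam ((T (J s lam m0 f0) - J s lam m0 f0 : SS s) : LL) x +
      Y lam ((T (J s lam m f - J s lam m0 f0) : SS s) : LL) x := by
    rw [LinearMap.sub_apply, Pi.sub_apply, Th_apply, Submodule.subtype_apply, map_sub,
      Submodule.coe_sub, Submodule.coe_sub, map_sub, map_sub, Pi.sub_apply, Pi.sub_apply, Y_J, ← hf]
    ring
  rw [e1]
  refine (abs_add_le _ _).trans (add_le_add ?_ ?_)
  · refine (abs_Y_le s lam _ x).trans ((div_le_self (norm_nonneg _) (one_le_w _ _)).trans hε)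
  · refine (abs_Y_le_w s hT _ hx).trans (div_le_div_of_nonneg_right ?_ (w_pos _ _).le)
    have h1 := norm_J_sub_le s lam m m0 hm f f0 hf hM
    have h2 : (0 : ℝ) ≤ ((x.1 : ℝ) + 1) * C := by positivity
    calc ((x.1 : ℝ) + 1) * C * ‖J s lam m f - J s lam m0 f0‖ ≤ ((x.1 : ℝ) + 1) * C * M :=
          mul_le_mul_of_nonneg_left h1 h2
      _ = C * (((x.1 : ℝ) + 1) * M) := by ring

/-- the difference with the identity, far vectors -/
lemma far_w (lam m : ℕ) (T : SS s →L[ℝ] SS s) {C M : ℝ} (hC0 : 0 ≤ C) (hT : WB s lam C T)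
    (f : En s m) (hM : ∀ x, w lam x.1 * |(f : Fn) x| ≤ M) (x : ℕ × ℕ) (hx : x.2 < 2 ^ (x.1 + 2)) :
    |(Th s lam m T - (En s m).subtype) f x| ≤ (C + 1) * (((x.1 : ℝ) + 1) * M) := by
  have hM0 : 0 ≤ M := (mul_nonneg (w_pos _ _).le (abs_nonneg _)).trans (hM (0, 0))
  have h1 : |Th s lam m T f x| ≤ ((x.1 : ℝ) + 1) * C * M := by
    rw [Th_apply]
    refine (abs_Y_le_w s hT _ hx).trans ((div_le_self (by positivity) (one_le_w _ _)).trans ?_)
    exact mul_le_mul_of_nonneg_left (norm_J_le s lam m f hM) (by positivity)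
  have h2 : |(f : Fn) x| ≤ M :=
    (le_mul_of_one_le_left (abs_nonneg _) (one_le_w _ _)).trans (hM x)
  rw [LinearMap.sub_apply, Pi.sub_apply, Submodule.subtype_apply]
  refine (abs_sub _ _).trans ?_
  have h3 : (0 : ℝ) ≤ (x.1 : ℝ) := Nat.cast_nonneg _
  nlinarith [mul_nonneg h3 hM0]

/-- the weighted sequence of bounds -/
def cw (k : ℕ) : ℝ := ((k : ℝ) + 1) * Sys.cc k

lemma cw_nonneg (k : ℕ) : 0 ≤ cw k := mul_nonneg (by positivity) (cc_nonneg k)

lemma summable_cw : Summable cw := by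
  have h := Sys.tendsto_cc
  obtain ⟨N, hN⟩ := Metric.tendsto_atTop.1 h 1 one_pos
  have h1 : ∀ k ≥ N, cw k ≤ ((k : ℝ) + 1) * (3 / 4 : ℝ) ^ k := by
    intro k hk
    have h2 := hN k hk
    rw [Real.dist_eq, sub_zero, abs_of_nonneg (mul_nonneg (by positivity) (cc_nonneg k))] at h2
    have h3 : (3 / 4 : ℝ) ^ k * ((4 / 3 : ℝ) ^ k * Sys.cc k) ≤ (3 / 4 : ℝ) ^ k * 1 :=
      mul_le_mul_of_nonneg_left h2.le (by positivity)
    rw [← mul_assoc, ← mul_pow] at h3
    norm_num at h3
    exact mul_le_mul_of_nonneg_left h3 (by positivity)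
  have hs : Summable fun k : ℕ => ((k : ℝ) + 1) * (3 / 4 : ℝ) ^ k := by
    have h5 : Summable fun k : ℕ => ((k : ℝ) ^ 1) * (3 / 4 : ℝ) ^ k :=
      summable_pow_mul_geometric_of_norm_lt_one 1 (by norm_num)
    have h6 : Summable fun k : ℕ => (3 / 4 : ℝ) ^ k :=
      summable_geometric_of_lt_one (by norm_num) (by norm_num)
    refine (h5.add h6).congr fun k => ?_
    ring
  refine (summable_nat_add_iff N).1 ?_
  refine Summable.of_nonneg_of_le (fun k => cw_nonneg _) (fun k => h1 (k + N) (by omega)) ?_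
  exact (summable_nat_add_iff N).2 hs

/-- the weighted failure of the bounded approximation property -/
theorem noBAPw (C : ℝ) (hC0 : 0 ≤ C) : ∃ lam : ℕ, ¬ ∀ K : Set (SS s), IsCompact K → ∀ ε : ℝ, 0 < ε →
        ∃ T : SS s →L[ℝ] SS s, FiniteDimensional ℝ (LinearMap.range (T : SS s →ₗ[ℝ] SS s)) ∧
          WB s lam C T ∧ ∀ x ∈ K, ‖T x - x‖ ≤ ε := by
  set Sg : ℝ := ∑' k, cw k with hSg
  have hsum := summable_cw
  have hSg0 : 0 ≤ Sg := tsum_nonneg cw_nonneg
  -- choice of the block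
  have hA : ∀ᶠ lam : ℕ in atTop, C * (1 + Sg) / ((lam : ℝ) + 1) ≤ 1 / 8 := by
    have h1 : Tendsto (fun lam : ℕ => C * (1 + Sg) / ((lam : ℝ) + 1)) atTop (𝓝 0) :=
      tendsto_const_div_atTop_nhds_zero_nat (C * (1 + Sg)) |>.comp (tendsto_add_atTop_nat 1) |>.congr
        (fun n => by simp)
    exact (h1.eventually (ge_mem_nhds (by norm_num : (0 : ℝ) < 1 / 8)))
  have hB : ∀ᶠ lam : ℕ in atTop, (C + 1) * (∑' k, cw (k + (lam + 1))) ≤ 1 / 8 := by
    have h1 : Tendsto (fun lam : ℕ => (C + 1) * (∑' k, cw (k + (lam + 1)))) atTop (𝓝 ((C + 1) * 0)) :=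
      ((tendsto_sum_nat_add cw).comp (tendsto_add_atTop_nat 1)).const_mul _
    rw [mul_zero] at h1
    exact (h1.eventually (ge_mem_nhds (by norm_num : (0 : ℝ) < 1 / 8)))
  obtain ⟨lam, hlamA, hlamB⟩ := (hA.and hB).exists
  refine ⟨lam, fun H => ?_⟩
  set ε : ℝ := 1 / (8 * ((lam : ℝ) + 3)) with hε
  have hε0 : 0 < ε := by positivity
  -- the compact set
  set K : Set (SS s) := insert (J s lam (lam + 2) (eE s (lam + 2) 0 0))
    ((fun p : ℕ × ℕ => J s lam (lam + 2) (ph s (lam + 2) p.1 p.2)) ''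
      ((Set.Iio (lam + 2)) ×ˢ (Set.Iio (2 ^ (lam + 3))))) with hK
  have hKf : K.Finite := (((Set.finite_Iio _).prod (Set.finite_Iio _)).image _).insert _
  obtain ⟨T, hTf, hTC, hTK⟩ := H K hKf.isCompact ε hε0
  obtain ⟨K0, hK0⟩ := bt_small s lam T hTf (1 / 4) (by norm_num)
  set m := max K0 (lam + 2) with hm
  have hm1 : lam + 2 ≤ m := le_max_right _ _
  have hsmall := hK0 m (le_max_left _ _)
  set Θ := Th s lam m T - (En s m).subtype with hΘ
  have hgood : ∀ f, Good s (Θ f) := fun f => good_sub s (good_Th s lam m T f) (good_En s f.2)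
  -- bounds
  set b : ℕ → ℝ := fun k => if k ≤ lam then ε + C * cw k / (lam + 1) else
    (if k = lam + 1 then ε else 0) + (C + 1) * cw k with hb
  have hb0 : ∀ g < 2 ^ 2, |Θ (eE s m 0 0) (0, g)| ≤ ε + C * 1 / (lam + 1) := by
    intro g hg
    have h1 := near_w s lam m (lam + 2) hm1 T (M := 1) hC0 hTC (eE s m 0 0) (eE s (lam + 2) 0 0)
      (by rw [eE_coe s (by omega) (by norm_num), eE_coe s (by omega) (by norm_num)])
      (fun x => by rw [eE_coe s (by omega) (by norm_num)]; exact abs_ee_le s _ _ _)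
      (hTK _ (Set.mem_insert _ _)) (0, g) (by simpa using hg)
    have h2 : w lam 0 = (lam : ℝ) + 1 := by unfold w; rw [if_pos (Nat.zero_le _)]
    rw [h2] at h1
    refine h1.trans (le_of_eq ?_)
    simp
  have hbk : ∀ k < m, ∀ g < 2 ^ (k + 2), |Θ (ph s m k g) (k, g)| ≤ b k := by
    intro k hk g hg
    by_cases h1 : k ≤ lam + 1
    · have h2 := near_w s lam m (lam + 2) hm1 T (M := Sys.cc k) hC0 hTC (ph s m k g)
        (ph s (lam + 2) k g)
        (by funext x; rw [ph_apply s (by omega), ph_apply s (by omega)])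
        (fun x => abs_ph_le s (by omega) hg x)
        (hTK _ (Set.mem_insert_of_mem _ ⟨(k, g), ⟨by simp only [Set.mem_Iio]; omega, by
          simp only [Set.mem_Iio]
          exact lt_of_lt_of_le hg (Nat.pow_le_pow_right (by norm_num) (by omega))⟩, rfl⟩)) (k, g) hg
      refine h2.trans ?_
      rw [hb]
      dsimp only
      change ε + C * cw k / w lam k ≤ _
      by_cases h3 : k ≤ lam
      · rw [if_pos h3]
        have h4 : w lam k = (lam : ℝ) + 1 := by unfold w; rw [if_pos h3]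
        rw [h4]
      · rw [if_neg h3, if_pos (by omega)]
        have h4 : w lam k = 1 := by unfold w; rw [if_neg h3]
        rw [h4, div_one]
        have := cw_nonneg k
        linarith
    · have h2 := far_w s lam m T (M := Sys.cc k) hC0 hTC (ph s m k g) (fun x => by
        by_cases hx : x.1 ≤ lam
        · rw [ph_zero s (by omega) (by omega), abs_zero, mul_zero]
          exact cc_nonneg k
        · have h4 : w lam x.1 = 1 := by unfold w; rw [if_neg hx]
          rw [h4, one_mul]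
          exact abs_ph_le s (by omega) hg x) (k, g) hg
      refine h2.trans ?_
      rw [hb]
      dsimp only
      change (C + 1) * cw k ≤ _
      rw [if_neg (by omega), if_neg (by omega), zero_add]
  have hfin := abs_bt_le s Θ hgood b hb0 hbk m le_rfl
  have hbt : bt s m m Θ = bt s m m (Th s lam m T) - 1 := by
    rw [hΘ, bt_sub, bt_id s le_rfl]
  -- sum of the bounds
  have hsumb : ∑ k ∈ range m, b k ≤ (lam + 2) * ε + C * Sg / (lam + 1) +
      (C + 1) * (∑' k, cw (k + (lam + 1))) := by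
    obtain ⟨r, hr⟩ := Nat.exists_eq_add_of_le (show lam + 1 ≤ m by omega)
    rw [hr, Finset.sum_range_add]
    have e1 : ∑ k ∈ range (lam + 1), b k ≤ (lam + 1) * ε + C * Sg / (lam + 1) := by
      have e2 : ∑ k ∈ range (lam + 1), b k = ∑ k ∈ range (lam + 1), (ε + C * cw k / (lam + 1)) := by
        refine Finset.sum_congr rfl fun k hk => ?_
        rw [hb]
        dsimp only
        rw [if_pos (by have := mem_range.1 hk; omega)]
      rw [e2, Finset.sum_add_distrib, Finset.sum_const, card_range, nsmul_eq_mul, ← Finset.sum_div,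
        ← Finset.mul_sum]
      push_cast
      gcongr
      exact hsum.sum_le_tsum _ (fun k _ => cw_nonneg k)
    have e3 : ∑ k ∈ range r, b (lam + 1 + k) ≤ ε + (C + 1) * (∑' k, cw (k + (lam + 1))) := by
      have e4 : ∑ k ∈ range r, b (lam + 1 + k) =
          ∑ k ∈ range r, ((if k = 0 then ε else 0) + (C + 1) * cw (k + (lam + 1))) := by
        refine Finset.sum_congr rfl fun k hk => ?_
        rw [hb]
        dsimp only
        rw [if_neg (by omega), add_comm (lam + 1) k]
        by_cases h0 : k = 0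
        · rw [if_pos h0, if_pos (by omega)]
        · rw [if_neg h0, if_neg (by omega)]
      rw [e4, Finset.sum_add_distrib, ← Finset.mul_sum]
      have e5 : ∑ k ∈ range r, (if k = 0 then ε else 0) ≤ ε := by
        rw [Finset.sum_ite_eq' (range r) 0 (fun _ => ε)]
        split_ifs
        · exact le_rfl
        · exact hε0.le
      have e6 : ∑ k ∈ range r, cw (k + (lam + 1)) ≤ ∑' k, cw (k + (lam + 1)) :=
        ((summable_nat_add_iff (lam + 1)).2 hsum).sum_le_tsum _ (fun k _ => cw_nonneg _)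
      have e7 := mul_le_mul_of_nonneg_left e6 (show 0 ≤ C + 1 by linarith)
      linarith
    have e8 : ((lam : ℝ) + 1) * ε + ε = (lam + 2) * ε := by ring
    linarith
  have hε8 : ((lam : ℝ) + 3) * ε = 1 / 8 := by
    rw [hε]; field_simp
  have hC1 : C * 1 / ((lam : ℝ) + 1) + C * Sg / (lam + 1) = C * (1 + Sg) / (lam + 1) := by ring
  have htot : |bt s m m Θ| ≤ 3 / 8 := by
    have : ((lam : ℝ) + 2) * ε + ε = (lam + 3) * ε := by ring
    linarith
  rw [hbt] at htot
  have h9 := abs_le.1 htot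
  have h10 := abs_le.1 hsmall
  linarith [h9.1, h9.2, h10.1, h10.2]

end Pool.Agent.T2H09.PL
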