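import Pool.Agent.T2H09.PL.Approx
import Pool.Agent.T2H09.PL.Weighted

set_option autoImplicit false
set_option linter.unusedSectionVars false

/-! # The space over `𝕜` -/

open Filter Topology Finset
open scoped ENNReal

noncomputable section

namespace Pool.Agent.T2H09.PL

open Pool.Agent.BAPp Pool.Agent.H812R2.AP Pool.Agent.H812R2.JS

variable (𝕜 : Type) [RCLike 𝕜]

/-- bounded sequences over `𝕜` -/
abbrev LK := lp (fun _ : ℕ => 𝕜) ∞

variable {𝕜}

lemma norm_I_le : ‖(RCLike.I : 𝕜)‖ ≤ 1 := by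
  rcases RCLike.I_eq_zero_or_im_I_eq_one (K := 𝕜) with h | h
  · rw [h, norm_zero]; exact zero_le_one
  · exact (RCLike.norm_I_of_ne_zero (by
      intro h0
      rw [h0, map_zero] at h
      exact zero_ne_one h)).le

lemma norm_le_LK {z : LK 𝕜} {C : ℝ} (hC : 0 ≤ C) (h : ∀ i, ‖z i‖ ≤ C) : ‖z‖ ≤ C :=
  lp.norm_le_of_forall_le hC h

lemma apply_le_LK (i : ℕ) (z : LK 𝕜) : ‖z i‖ ≤ ‖z‖ :=
  lp.norm_apply_le_norm (E := fun _ : ℕ => 𝕜) (p := ∞) ENNReal.top_ne_zero z i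

/-- real part -/
def reF (z : LK 𝕜) : LL := ⟨fun i => RCLike.re (z i), memℓp_infty ⟨‖z‖, by
  rintro _ ⟨i, rfl⟩
  exact (RCLike.norm_re_le_norm (z i)).trans (apply_le_LK i z)⟩⟩

/-- imaginary part -/
def imF (z : LK 𝕜) : LL := ⟨fun i => RCLike.im (z i), memℓp_infty ⟨‖z‖, by
  rintro _ ⟨i, rfl⟩
  exact (RCLike.norm_im_le_norm (z i)).trans (apply_le_LK i z)⟩⟩

variable (𝕜) in
/-- the embedding of the real sequences -/
def inc (x : LL) : LK 𝕜 := ⟨fun i => ((x i : ℝ) : 𝕜), memℓp_infty ⟨‖x‖, by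
  rintro _ ⟨i, rfl⟩
  dsimp only
  rw [RCLike.norm_ofReal]
  exact abs_ev_le i x⟩⟩

lemma reF_apply (z : LK 𝕜) (i : ℕ) : reF z i = RCLike.re (z i) := rfl
lemma imF_apply (z : LK 𝕜) (i : ℕ) : imF z i = RCLike.im (z i) := rfl
lemma inc_apply (x : LL) (i : ℕ) : inc 𝕜 x i = ((x i : ℝ) : 𝕜) := rfl

lemma add_apply_LK (a b : LK 𝕜) (i : ℕ) : (a + b) i = a i + b i := rfl
lemma sub_apply_LK (a b : LK 𝕜) (i : ℕ) : (a - b) i = a i - b i := rfl
lemma smul_apply_LK (c : 𝕜) (b : LK 𝕜) (i : ℕ) : (c • b) i = c * b i := rfl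
lemma add_apply_LL (a b : LL) (i : ℕ) : (a + b) i = a i + b i := rfl
lemma sub_apply_LL (a b : LL) (i : ℕ) : (a - b) i = a i - b i := rfl
lemma smul_apply_LL (c : ℝ) (b : LL) (i : ℕ) : (c • b) i = c * b i := rfl

lemma reF_add (a b : LK 𝕜) : reF (a + b) = reF a + reF b := by
  apply lp.ext; funext i
  rw [reF_apply, add_apply_LK, map_add, add_apply_LL, reF_apply, reF_apply]

lemma imF_add (a b : LK 𝕜) : imF (a + b) = imF a + imF b := by
  apply lp.ext; funext i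
  rw [imF_apply, add_apply_LK, map_add, add_apply_LL, imF_apply, imF_apply]

lemma reF_smul (c : 𝕜) (a : LK 𝕜) : reF (c • a) = RCLike.re c • reF a - RCLike.im c • imF a := by
  apply lp.ext; funext i
  rw [reF_apply, smul_apply_LK, RCLike.mul_re, sub_apply_LL, smul_apply_LL, smul_apply_LL,
    reF_apply, imF_apply]

lemma imF_smul (c : 𝕜) (a : LK 𝕜) : imF (c • a) = RCLike.re c • imF a + RCLike.im c • reF a := by
  apply lp.ext; funext i
  rw [imF_apply, smul_apply_LK, RCLike.mul_im, add_apply_LL, smul_apply_LL, smul_apply_LL,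
    reF_apply, imF_apply]

lemma inc_add (a b : LL) : inc 𝕜 (a + b) = inc 𝕜 a + inc 𝕜 b := by
  apply lp.ext; funext i
  rw [inc_apply, add_apply_LL, add_apply_LK, inc_apply, inc_apply, RCLike.ofReal_add]

lemma inc_sub (a b : LL) : inc 𝕜 (a - b) = inc 𝕜 a - inc 𝕜 b := by
  apply lp.ext; funext i
  rw [inc_apply, sub_apply_LL, sub_apply_LK, inc_apply, inc_apply, RCLike.ofReal_sub]

lemma inc_smul (c : ℝ) (a : LL) : inc 𝕜 (c • a) = (c : 𝕜) • inc 𝕜 a := by
  apply lp.ext; funext i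
  rw [inc_apply, smul_apply_LL, smul_apply_LK, inc_apply, RCLike.ofReal_mul]

lemma inc_zero : inc 𝕜 0 = 0 := by
  apply lp.ext; funext i
  rw [inc_apply]
  simp

lemma reF_inc (x : LL) : reF (inc 𝕜 x) = x := by
  apply lp.ext; funext i
  rw [reF_apply, inc_apply, RCLike.ofReal_re]

lemma imF_inc (x : LL) : imF (inc 𝕜 x) = 0 := by
  apply lp.ext; funext i
  rw [imF_apply, inc_apply, RCLike.ofReal_im]
  rfl

lemma norm_inc (x : LL) : ‖inc 𝕜 x‖ ≤ ‖x‖ :=
  norm_le_LK (norm_nonneg _) fun i => by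
    rw [inc_apply, RCLike.norm_ofReal]; exact abs_ev_le i x

lemma norm_reF (z : LK 𝕜) : ‖reF z‖ ≤ ‖z‖ :=
  norm_le_of (norm_nonneg _) fun i => by
    rw [reF_apply]; exact (RCLike.abs_re_le_norm (z i)).trans (apply_le_LK i z)

lemma norm_imF (z : LK 𝕜) : ‖imF z‖ ≤ ‖z‖ :=
  norm_le_of (norm_nonneg _) fun i => by
    rw [imF_apply]; exact (RCLike.abs_im_le_norm (z i)).trans (apply_le_LK i z)

lemma reF_sub (a b : LK 𝕜) : reF (a - b) = reF a - reF b := by
  apply lp.ext; funext i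
  rw [reF_apply, sub_apply_LK, map_sub, sub_apply_LL, reF_apply, reF_apply]

lemma imF_sub (a b : LK 𝕜) : imF (a - b) = imF a - imF b := by
  apply lp.ext; funext i
  rw [imF_apply, sub_apply_LK, map_sub, sub_apply_LL, imF_apply, imF_apply]

lemma continuous_reF : Continuous (reF : LK 𝕜 → LL) := by
  refine (LipschitzWith.of_dist_le_mul (K := 1) fun a b => ?_).continuous
  rw [dist_eq_norm, dist_eq_norm, ← reF_sub, NNReal.coe_one, one_mul]
  exact norm_reF _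

lemma continuous_imF : Continuous (imF : LK 𝕜 → LL) := by
  refine (LipschitzWith.of_dist_le_mul (K := 1) fun a b => ?_).continuous
  rw [dist_eq_norm, dist_eq_norm, ← imF_sub, NNReal.coe_one, one_mul]
  exact norm_imF _

lemma decomp (z : LK 𝕜) : z = inc 𝕜 (reF z) + (RCLike.I : 𝕜) • inc 𝕜 (imF z) := by
  apply lp.ext; funext i
  rw [add_apply_LK, smul_apply_LK, inc_apply, inc_apply, reF_apply, imF_apply, mul_comm]
  exact (RCLike.re_add_im (z i)).symm

variable (s : Sys)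

variable (𝕜) in
/-- the space over `𝕜` -/
def XK : Submodule 𝕜 (LK 𝕜) where
  carrier := {z | reF z ∈ SS s ∧ imF z ∈ SS s}
  add_mem' {a b} ha hb := by
    refine ⟨?_, ?_⟩
    · rw [reF_add]; exact (SS s).add_mem ha.1 hb.1
    · rw [imF_add]; exact (SS s).add_mem ha.2 hb.2
  zero_mem' := by
    have h0 : (0 : LK 𝕜) = inc 𝕜 0 := inc_zero.symm
    refine ⟨?_, ?_⟩
    · rw [h0, reF_inc]; exact (SS s).zero_mem
    · rw [h0, imF_inc]; exact (SS s).zero_mem
  smul_mem' c a ha := by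
    refine ⟨?_, ?_⟩
    · rw [reF_smul]; exact (SS s).sub_mem ((SS s).smul_mem _ ha.1) ((SS s).smul_mem _ ha.2)
    · rw [imF_smul]; exact (SS s).add_mem ((SS s).smul_mem _ ha.2) ((SS s).smul_mem _ ha.1)

lemma mem_XK {z : LK 𝕜} : z ∈ XK 𝕜 s ↔ reF z ∈ SS s ∧ imF z ∈ SS s := Iff.rfl

lemma isClosed_XK : IsClosed (XK 𝕜 s : Set (LK 𝕜)) :=
  ((isClosed_SS s).preimage continuous_reF).inter ((isClosed_SS s).preimage continuous_imF)

instance instNG : NormedAddCommGroup (XK 𝕜 s) := inferInstance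
instance instAG : AddCommGroup (XK 𝕜 s) := inferInstance
instance instNS : NormedSpace 𝕜 (XK 𝕜 s) := inferInstance
instance instMod : Module 𝕜 (XK 𝕜 s) := inferInstance

instance : CompleteSpace (XK 𝕜 s) := (isClosed_XK s).completeSpace_coe

lemma tendsto_XK {z : LK 𝕜} (hz : z ∈ XK 𝕜 s) : Tendsto (fun n : ℕ => z n) atTop (𝓝 0) := by
  have h1 := ((mem_SS s).1 hz.1).1
  have h2 := ((mem_SS s).1 hz.2).1
  rw [tendsto_zero_iff_norm_tendsto_zero]
  have h3 : Tendsto (fun n : ℕ => |reF z n| + |imF z n|) atTop (𝓝 0) := by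
    have := h1.abs.add h2.abs
    simpa using this
  refine squeeze_zero (fun n => norm_nonneg _) (fun n => ?_) h3
  have e : z n = ((RCLike.re (z n) : ℝ) : 𝕜) + ((RCLike.im (z n) : ℝ) : 𝕜) * RCLike.I :=
    (RCLike.re_add_im (z n)).symm
  have h5 : ‖(RCLike.I : 𝕜)‖ ≤ 1 := norm_I_le
  rw [reF_apply, imF_apply]
  calc ‖z n‖ = ‖((RCLike.re (z n) : ℝ) : 𝕜) + ((RCLike.im (z n) : ℝ) : 𝕜) * RCLike.I‖ := by
        rw [← e]
    _ ≤ ‖((RCLike.re (z n) : ℝ) : 𝕜)‖ + ‖((RCLike.im (z n) : ℝ) : 𝕜) * RCLike.I‖ := norm_add_le _ _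
    _ ≤ |RCLike.re (z n)| + |RCLike.im (z n)| := by
        rw [norm_mul, RCLike.norm_ofReal, RCLike.norm_ofReal]
        exact add_le_add le_rfl (mul_le_of_le_one_right (abs_nonneg _) h5)

/-- the real part of an element of the space -/
def ReS (z : XK 𝕜 s) : SS s := ⟨reF (z : LK 𝕜), z.2.1⟩
/-- the imaginary part of an element of the space -/
def ImS (z : XK 𝕜 s) : SS s := ⟨imF (z : LK 𝕜), z.2.2⟩

variable (𝕜) in
/-- the embedding of the real space -/
def incS (x : SS s) : XK 𝕜 s := ⟨inc 𝕜 (x : LL), by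
  rw [mem_XK, reF_inc, imF_inc]; exact ⟨x.2, (SS s).zero_mem⟩⟩

lemma ReS_add (a b : XK 𝕜 s) : ReS s (a + b) = ReS s a + ReS s b := Subtype.ext (reF_add _ _)
lemma ImS_add (a b : XK 𝕜 s) : ImS s (a + b) = ImS s a + ImS s b := Subtype.ext (imF_add _ _)
lemma ReS_sub (a b : XK 𝕜 s) : ReS s (a - b) = ReS s a - ReS s b := Subtype.ext (reF_sub _ _)
lemma ImS_sub (a b : XK 𝕜 s) : ImS s (a - b) = ImS s a - ImS s b := Subtype.ext (imF_sub _ _)
lemma ReS_smul (c : 𝕜) (a : XK 𝕜 s) :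
    ReS s (c • a) = RCLike.re c • ReS s a - RCLike.im c • ImS s a := Subtype.ext (reF_smul _ _)
lemma ImS_smul (c : 𝕜) (a : XK 𝕜 s) :
    ImS s (c • a) = RCLike.re c • ImS s a + RCLike.im c • ReS s a := Subtype.ext (imF_smul _ _)
lemma incS_add (a b : SS s) : incS 𝕜 s (a + b) = incS 𝕜 s a + incS 𝕜 s b :=
  Subtype.ext (inc_add _ _)
lemma incS_sub (a b : SS s) : incS 𝕜 s (a - b) = incS 𝕜 s a - incS 𝕜 s b :=
  Subtype.ext (inc_sub _ _)
lemma incS_smul (c : ℝ) (a : SS s) : incS 𝕜 s (c • a) = (c : 𝕜) • incS 𝕜 s a :=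
  Subtype.ext (inc_smul _ _)
lemma ReS_incS (a : SS s) : ReS s (incS 𝕜 s a) = a := Subtype.ext (reF_inc _)
lemma ImS_incS (a : SS s) : ImS s (incS 𝕜 s a) = 0 := Subtype.ext (imF_inc _)
lemma norm_ReS (a : XK 𝕜 s) : ‖ReS s a‖ ≤ ‖a‖ := norm_reF _
lemma norm_ImS (a : XK 𝕜 s) : ‖ImS s a‖ ≤ ‖a‖ := norm_imF _
lemma norm_incS (a : SS s) : ‖incS 𝕜 s a‖ ≤ ‖a‖ := norm_inc _

lemma decompS (z : XK 𝕜 s) :
    z = incS 𝕜 s (ReS s z) + (RCLike.I : 𝕜) • incS 𝕜 s (ImS s z) := Subtype.ext (decomp _)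

lemma continuous_ReS : Continuous (ReS s : XK 𝕜 s → SS s) := by
  refine (LipschitzWith.of_dist_le_mul (K := 1) fun a b => ?_).continuous
  rw [dist_eq_norm, dist_eq_norm, ← ReS_sub, NNReal.coe_one, one_mul]
  exact norm_ReS s _

lemma continuous_ImS : Continuous (ImS s : XK 𝕜 s → SS s) := by
  refine (LipschitzWith.of_dist_le_mul (K := 1) fun a b => ?_).continuous
  rw [dist_eq_norm, dist_eq_norm, ← ImS_sub, NNReal.coe_one, one_mul]
  exact norm_ImS s _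

lemma continuous_incS : Continuous (incS 𝕜 s) := by
  refine (LipschitzWith.of_dist_le_mul (K := 1) fun a b => ?_).continuous
  rw [dist_eq_norm, dist_eq_norm, ← incS_sub, NNReal.coe_one, one_mul]
  exact norm_incS s _

/-- the extension of a real operator -/
def extK (T : SS s →L[ℝ] SS s) : XK 𝕜 s →L[𝕜] XK 𝕜 s :=
  LinearMap.mkContinuous
    { toFun := fun z => incS 𝕜 s (T (ReS s z)) + (RCLike.I : 𝕜) • incS 𝕜 s (T (ImS s z))
      map_add' := by
        intro a b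
        rw [ReS_add, ImS_add, map_add, map_add, incS_add, incS_add, smul_add]
        abel
      map_smul' := by
        intro c a
        rw [ReS_smul, ImS_smul, map_sub, map_add, map_smul, map_smul, map_smul, map_smul, incS_sub,
          incS_add, incS_smul, incS_smul, incS_smul, incS_smul, RingHom.id_apply]
        set u := incS 𝕜 s (T (ReS s a))
        set v := incS 𝕜 s (T (ImS s a))
        have hc : c = (RCLike.re c : 𝕜) + (RCLike.im c : 𝕜) * RCLike.I := (RCLike.re_add_im c).symm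
        have hI : (RCLike.im c : 𝕜) * (RCLike.I * RCLike.I) = - (RCLike.im c : 𝕜) := by
          rcases RCLike.I_mul_I (K := 𝕜) with h | h
          · have h2 : RCLike.im c = 0 := RCLike.I_eq_zero_or_im_I_eq_one.elim
              (fun h0 => RCLike.im_eq_zero h0 c) (fun h1 => by
                rw [h, map_zero] at h1
                exact absurd h1 zero_ne_one)
            rw [h2, RCLike.ofReal_zero, zero_mul, neg_zero]
          · rw [h, mul_neg, mul_one]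
        conv_rhs => rw [hc]
        rw [add_smul, smul_add, smul_add, smul_add, smul_smul, smul_smul, smul_smul, smul_smul,
          mul_assoc, hI, neg_smul, mul_comm (RCLike.I : 𝕜) (RCLike.re c : 𝕜),
          mul_comm (RCLike.I : 𝕜) (RCLike.im c : 𝕜)]
        abel } (2 * ‖T‖) (fun z => by
      have h1 : ‖incS 𝕜 s (T (ReS s z))‖ ≤ ‖T‖ * ‖z‖ :=
        (norm_incS s _).trans ((T.le_opNorm _).trans
          (mul_le_mul_of_nonneg_left (norm_ReS s z) T.opNorm_nonneg))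
      have h2 : ‖(RCLike.I : 𝕜) • incS 𝕜 s (T (ImS s z))‖ ≤ ‖T‖ * ‖z‖ := by
        rw [norm_smul]
        have h3 : ‖incS 𝕜 s (T (ImS s z))‖ ≤ ‖T‖ * ‖z‖ :=
          (norm_incS s _).trans ((T.le_opNorm _).trans
            (mul_le_mul_of_nonneg_left (norm_ImS s z) T.opNorm_nonneg))
        calc ‖(RCLike.I : 𝕜)‖ * ‖incS 𝕜 s (T (ImS s z))‖ ≤ 1 * (‖T‖ * ‖z‖) :=
              mul_le_mul norm_I_le h3 (norm_nonneg _) zero_le_one
          _ = ‖T‖ * ‖z‖ := one_mul _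
      refine (norm_add_le _ _).trans ?_
      linarith)

lemma extK_apply (T : SS s →L[ℝ] SS s) (z : XK 𝕜 s) :
    extK s T z = incS 𝕜 s (T (ReS s z)) + (RCLike.I : 𝕜) • incS 𝕜 s (T (ImS s z)) := rfl

lemma finRank_extK (T : SS s →L[ℝ] SS s)
    (hT : FiniteDimensional ℝ (LinearMap.range (T : SS s →ₗ[ℝ] SS s))) :
    FinRank (extK s T : XK 𝕜 s →L[𝕜] XK 𝕜 s) := by
  obtain ⟨t, ht⟩ := (Module.finite_def.1 hT)
  have hfg : (LinearMap.range (T : SS s →ₗ[ℝ] SS s)).FG := Module.Finite.iff_fg.1 hT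
  obtain ⟨t, ht⟩ := hfg
  have hfin : (incS 𝕜 s '' (t : Set (SS s))).Finite := t.finite_toSet.image _
  have key : ∀ v ∈ LinearMap.range (T : SS s →ₗ[ℝ] SS s),
      incS 𝕜 s v ∈ Submodule.span 𝕜 (incS 𝕜 s '' (t : Set (SS s))) := by
    intro v hv
    rw [← ht] at hv
    refine Submodule.span_induction (p := fun v _ => incS 𝕜 s v ∈
      Submodule.span 𝕜 (incS 𝕜 s '' (t : Set (SS s)))) ?_ ?_ ?_ ?_ hv
    · intro v hv
      exact Submodule.subset_span ⟨v, hv, rfl⟩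
    · have h0 : incS 𝕜 s 0 = 0 := Subtype.ext inc_zero
      rw [h0]
      exact Submodule.zero_mem _
    · intro a b _ _ ha hb
      rw [incS_add]
      exact Submodule.add_mem _ ha hb
    · intro c a _ ha
      rw [incS_smul]
      exact Submodule.smul_mem _ _ ha
  have hfd : FiniteDimensional 𝕜 (Submodule.span 𝕜 (incS 𝕜 s '' (t : Set (SS s)))) :=
    FiniteDimensional.span_of_finite 𝕜 hfin
  refine FinRank.of_range_le hfd fun z => ?_
  rw [extK_apply]
  exact Submodule.add_mem _ (key _ ⟨_, rfl⟩) (Submodule.smul_mem _ _ (key _ ⟨_, rfl⟩))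

/-- the space has the approximation property -/
theorem hasAP_XK (K : Set (XK 𝕜 s)) (hK : IsCompact K) (ε : ℝ) (hε : 0 < ε) :
    ∃ S : XK 𝕜 s →L[𝕜] XK 𝕜 s, FinRank S ∧ ∀ x ∈ K, ‖S x - x‖ ≤ ε := by
  have h1 : IsCompact (ReS s '' K ∪ ImS s '' K) :=
    (hK.image (continuous_ReS s)).union (hK.image (continuous_ImS s))
  obtain ⟨T, hT, hTK⟩ := hasAP s _ h1 (ε / 2) (by positivity)
  refine ⟨extK s T, finRank_extK s T hT, fun z hz => ?_⟩
  have h2 := hTK _ (Set.mem_union_left _ ⟨z, hz, rfl⟩)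
  have h3 := hTK _ (Set.mem_union_right _ ⟨z, hz, rfl⟩)
  have e : extK s T z - z = incS 𝕜 s (T (ReS s z) - ReS s z) +
      (RCLike.I : 𝕜) • incS 𝕜 s (T (ImS s z) - ImS s z) := by
    rw [extK_apply, incS_sub, incS_sub, smul_sub]
    calc incS 𝕜 s (T (ReS s z)) + (RCLike.I : 𝕜) • incS 𝕜 s (T (ImS s z)) - z
        = incS 𝕜 s (T (ReS s z)) + (RCLike.I : 𝕜) • incS 𝕜 s (T (ImS s z)) -
          (incS 𝕜 s (ReS s z) + (RCLike.I : 𝕜) • incS 𝕜 s (ImS s z)) := by rw [← decompS s z]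
      _ = _ := by abel
  rw [e]
  refine (norm_add_le _ _).trans ?_
  rw [norm_smul]
  have h4 : ‖(RCLike.I : 𝕜)‖ * ‖incS 𝕜 s (T (ImS s z) - ImS s z)‖ ≤ 1 * (ε / 2) :=
    mul_le_mul norm_I_le ((norm_incS s _).trans h3) (norm_nonneg _) zero_le_one
  have h5 := (norm_incS (𝕜 := 𝕜) s (T (ReS s z) - ReS s z)).trans h2
  linarith

/-- the real part of an operator -/
def res (S : XK 𝕜 s →L[𝕜] XK 𝕜 s) : SS s →L[ℝ] SS s :=
  LinearMap.mkContinuous
    { toFun := fun x => ReS s (S (incS 𝕜 s x))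
      map_add' := fun a b => by rw [incS_add, map_add, ReS_add]
      map_smul' := fun c a => by
        rw [incS_smul, map_smul, ReS_smul, RCLike.ofReal_re, RCLike.ofReal_im, zero_smul, sub_zero,
          RingHom.id_apply] } ‖S‖ (fun x =>
      (norm_ReS s _).trans ((S.le_opNorm _).trans
        (mul_le_mul_of_nonneg_left (norm_incS s x) (norm_nonneg _))))

lemma res_apply (S : XK 𝕜 s →L[𝕜] XK 𝕜 s) (x : SS s) : res s S x = ReS s (S (incS 𝕜 s x)) := rfl

lemma finRank_res (S : XK 𝕜 s →L[𝕜] XK 𝕜 s) (hS : FinRank S) :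
    FiniteDimensional ℝ (LinearMap.range (res s S : SS s →ₗ[ℝ] SS s)) := by
  obtain ⟨W, hW, hSW⟩ := hS
  have hle : LinearMap.range (S : XK 𝕜 s →ₗ[𝕜] XK 𝕜 s) ≤ W := by
    rintro _ ⟨x, rfl⟩
    exact hSW x
  have hfd0 : FiniteDimensional 𝕜 (LinearMap.range (S : XK 𝕜 s →ₗ[𝕜] XK 𝕜 s)) :=
    Submodule.finiteDimensional_of_le hle
  have hfg : (LinearMap.range (S : XK 𝕜 s →ₗ[𝕜] XK 𝕜 s)).FG := Module.Finite.iff_fg.1 hfd0
  obtain ⟨t, ht⟩ := hfg
  have hfin : (ReS s '' (t : Set (XK 𝕜 s)) ∪ ImS s '' (t : Set (XK 𝕜 s))).Finite :=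
    (t.finite_toSet.image _).union (t.finite_toSet.image _)
  set V := Submodule.span ℝ (ReS s '' (t : Set (XK 𝕜 s)) ∪ ImS s '' (t : Set (XK 𝕜 s))) with hV
  have key : ∀ v ∈ LinearMap.range (S : XK 𝕜 s →ₗ[𝕜] XK 𝕜 s), ReS s v ∈ V ∧ ImS s v ∈ V := by
    intro v hv
    rw [← ht] at hv
    refine Submodule.span_induction (p := fun v _ => ReS s v ∈ V ∧ ImS s v ∈ V) ?_ ?_ ?_ ?_ hv
    · intro v hv
      exact ⟨Submodule.subset_span (Set.mem_union_left _ ⟨v, hv, rfl⟩),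
        Submodule.subset_span (Set.mem_union_right _ ⟨v, hv, rfl⟩)⟩
    · have h0 : incS 𝕜 s 0 = 0 := Subtype.ext inc_zero
      rw [← h0, ReS_incS, ImS_incS]
      exact ⟨V.zero_mem, V.zero_mem⟩
    · intro a b _ _ ha hb
      rw [ReS_add, ImS_add]
      exact ⟨V.add_mem ha.1 hb.1, V.add_mem ha.2 hb.2⟩
    · intro c a _ ha
      rw [ReS_smul, ImS_smul]
      exact ⟨V.sub_mem (V.smul_mem _ ha.1) (V.smul_mem _ ha.2),
        V.add_mem (V.smul_mem _ ha.2) (V.smul_mem _ ha.1)⟩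
  have hfd : FiniteDimensional ℝ V := FiniteDimensional.span_of_finite ℝ hfin
  refine Submodule.finiteDimensional_of_le (S₂ := V) ?_
  rintro _ ⟨x, rfl⟩
  exact (key _ ⟨_, rfl⟩).1

end Pool.Agent.T2H09.PL
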